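import Pool.Agent.Q76.H2.Stm

/-! Project H2 (helper76), job V (helper182): the Gaussian integral over the dual cone. -/

set_option autoImplicit false

open Set Filter Topology MeasureTheory

namespace Pool.Agent.Q182.H2.V

open Pool.Agent.Q76.HR Pool.Agent.Q76.H2

section

variable {F : Type} [NormedAddCommGroup F] [InnerProductSpace ℝ F] [FiniteDimensional ℝ F]
  [MeasurableSpace F] [BorelSpace F]

lemma Pd_closed (K : Set (Sp F)) : IsClosed (Pd K) := by
  have e : Pd K = ⋂ q ∈ K, {p : F | inner ℝ p q.fst ≤ q.snd} := by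
    ext p
    simp [Pd]
  rw [e]
  exact isClosed_biInter fun q _ => isClosed_le (by fun_prop) continuous_const

lemma dual_closed (K : Set (Sp F)) : IsClosed {x : Sp F | ∀ q ∈ K, 0 ≤ inner ℝ x q} := by
  have e : {x : Sp F | ∀ q ∈ K, 0 ≤ inner ℝ x q} = ⋂ q ∈ K, {x : Sp F | 0 ≤ inner ℝ x q} := by
    ext p
    simp
  rw [e]
  exact isClosed_biInter fun q _ => isClosed_le continuous_const (by fun_prop)

lemma int_gauss (E : Type) [NormedAddCommGroup E] [InnerProductSpace ℝ E] [FiniteDimensional ℝ E]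
    [MeasurableSpace E] [BorelSpace E] : Integrable (fun y : E => Real.exp (-‖y‖ ^ 2)) := by
  have h := (GaussianFourier.integrable_cexp_neg_mul_sq_norm_add (V := E) (b := 1)
    (by simp) 0 0).norm
  refine h.congr (Filter.Eventually.of_forall fun y => ?_)
  simp only [Complex.norm_exp]
  congr 1
  simp [← Complex.ofReal_pow]

lemma mem_iff (K : Set (Sp F)) {c τ : ℝ} (hc : 0 < c) (hτ : 0 < τ) (x : F) :
    (∀ q ∈ Sc K c, 0 ≤ inner ℝ (pt x τ) q) ↔ (c * τ)⁻¹ • (-x) ∈ Pd K := by
  have hcτ : 0 < c * τ := mul_pos hc hτ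
  constructor
  · intro h r hr
    have hq : pt (c⁻¹ • r.fst) r.snd ∈ Sc K c := by
      show pt (c • (pt (c⁻¹ • r.fst) r.snd).fst) (pt (c⁻¹ • r.fst) r.snd).snd ∈ K
      rw [pt_fst, pt_snd, smul_inv_smul₀ hc.ne']
      exact hr
    have h1 := h _ hq
    rw [inner_sp, pt_fst, pt_snd, pt_fst, pt_snd, inner_smul_right] at h1
    rw [inner_smul_left, inner_neg_left]
    simp only [conj_trivial]
    rw [inv_mul_le_iff₀ hcτ]
    have h2 : c * (c⁻¹ * inner ℝ x r.fst + τ * r.snd) = inner ℝ x r.fst + c * τ * r.snd := by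
      field_simp
    have h3 := mul_nonneg hc.le h1
    rw [h2] at h3
    linarith
  · intro h q hq
    have hr : pt (c • q.fst) q.snd ∈ K := hq
    have h1 := h _ hr
    rw [pt_fst, pt_snd, inner_smul_left, inner_neg_left, inner_smul_right] at h1
    simp only [conj_trivial] at h1
    rw [inv_mul_le_iff₀ hcτ] at h1
    rw [inner_sp, pt_fst, pt_snd]
    have h2 : 0 ≤ c * (inner ℝ x q.fst + τ * q.snd) := by
      have : c * (inner ℝ x q.fst + τ * q.snd) = c * inner ℝ x q.fst + c * τ * q.snd := by ring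
      rw [this]
      linarith
    exact nonneg_of_mul_nonneg_right h2 hc

end

theorem a (F : Type) [NormedAddCommGroup F] [InnerProductSpace ℝ F] [FiniteDimensional ℝ F]
    [MeasurableSpace F] [BorelSpace F] : S_V F := by
  intro K hK c hc
  obtain ⟨D, hD⟩ : ∃ D : Set (Sp F), D = {x : Sp F | ∀ q ∈ Sc K c, 0 ≤ inner ℝ x q} := ⟨_, rfl⟩
  have hDc : IsClosed D := by rw [hD]; exact dual_closed _
  have hV : Vd (Sc K c) = ∫ x : Sp F, D.indicator (fun x => Real.exp (-‖x‖ ^ 2)) x := by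
    unfold Vd
    rw [← hD, integral_indicator hDc.measurableSet]
  have hmp : MeasurePreserving (@WithLp.toLp 2 (F × ℝ)) := WithLp.volume_preserving_toLp F ℝ
  have hme : MeasurableEmbedding (@WithLp.toLp 2 (F × ℝ)) :=
    (MeasurableEquiv.toLp 2 (F × ℝ)).measurableEmbedding
  rw [hV, ← hmp.integral_comp hme]
  -- the norm
  have hn : ∀ (x : F) (τ : ℝ), Real.exp (-‖(WithLp.toLp 2 (x, τ) : Sp F)‖ ^ 2) =
      Real.exp (-‖x‖ ^ 2) * Real.exp (-τ ^ 2) := by
    intro x τ
    rw [← Real.exp_add, ← real_inner_self_eq_norm_sq, inner_sp]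
    congr 1
    show -(inner ℝ x x + τ * τ) = _
    rw [real_inner_self_eq_norm_sq]
    ring
  obtain ⟨G, hG⟩ : ∃ G : F × ℝ → ℝ, G = fun z => D.indicator (fun x => Real.exp (-‖x‖ ^ 2))
    (WithLp.toLp 2 z) := ⟨_, rfl⟩
  have hGz : ∀ z, G z = D.indicator (fun x => Real.exp (-‖x‖ ^ 2)) (WithLp.toLp 2 z) := by
    intro z; rw [hG]
  have hGm : Measurable G := by
    rw [hG]
    exact (Measurable.indicator (by fun_prop) hDc.measurableSet).comp hme.measurable
  have hGi : Integrable G := by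
    have h1 : Integrable (fun z : F × ℝ => Real.exp (-‖z.1‖ ^ 2) * Real.exp (-z.2 ^ 2)) := by
      have h2 := (int_gauss F).mul_prod (int_gauss ℝ)
      refine h2.congr (Filter.Eventually.of_forall fun z => ?_)
      simp
    refine h1.mono' hGm.aestronglyMeasurable (Filter.Eventually.of_forall fun z => ?_)
    rw [hGz]
    by_cases h : (WithLp.toLp 2 z : Sp F) ∈ D
    · rw [indicator_of_mem h, Real.norm_of_nonneg (Real.exp_pos _).le]
      exact (hn z.1 z.2).le
    · rw [indicator_of_notMem h, norm_zero]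
      positivity
  have e1 : (∫ z : F × ℝ, D.indicator (fun x => Real.exp (-‖x‖ ^ 2)) (WithLp.toLp 2 z)) =
      ∫ τ : ℝ, ∫ x : F, G (x, τ) := by
    rw [← integral_prod_symm G hGi, hG]
    rfl
  rw [e1]
  have e2 : (∫ τ : ℝ, ∫ x : F, G (x, τ)) = ∫ τ in Ici (0:ℝ), ∫ x : F, G (x, τ) := by
    refine (setIntegral_eq_integral_of_forall_compl_eq_zero fun τ hτ => ?_).symm
    rw [mem_Ici, not_le] at hτ
    have : ∀ x : F, G (x, τ) = 0 := by
      intro x
      rw [hGz]
      apply indicator_of_notMem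
      rw [hD]
      intro h
      have hev : ev ∈ Sc K c := by
        show pt (c • (ev : Sp F).fst) (ev : Sp F).snd ∈ K
        rw [ev_fst, smul_zero]
        exact hK.ev_mem
      have h1 := h ev hev
      rw [inner_ev] at h1
      exact absurd h1 (not_le.2 hτ)
    simp [this]
  rw [e2, integral_Ici_eq_integral_Ioi]
  refine setIntegral_congr_fun measurableSet_Ioi fun τ hτ => ?_
  rw [mem_Ioi] at hτ
  have hP := Pd_closed K
  have hPm : MeasurableSet {x : F | (c * τ)⁻¹ • x ∈ Pd K} :=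
    (hP.preimage (by fun_prop : Continuous fun x : F => (c * τ)⁻¹ • x)).measurableSet
  have e3 : ∀ x : F, G (x, τ) = Real.exp (-τ ^ 2) *
      {x : F | (c * τ)⁻¹ • x ∈ Pd K}.indicator (fun x => Real.exp (-‖x‖ ^ 2)) (-x) := by
    intro x
    rw [hGz]
    by_cases h : (c * τ)⁻¹ • (-x) ∈ Pd K
    · have h1 : (WithLp.toLp 2 (x, τ) : Sp F) ∈ D := by
        rw [hD]
        exact (mem_iff K hc hτ x).2 h
      rw [indicator_of_mem h1, indicator_of_mem (by exact h), hn, norm_neg, mul_comm]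
    · have h1 : (WithLp.toLp 2 (x, τ) : Sp F) ∉ D := by
        rw [hD]
        exact fun h2 => h ((mem_iff K hc hτ x).1 h2)
      rw [indicator_of_notMem h1, indicator_of_notMem (by exact h), mul_zero]
  show (∫ x : F, G (x, τ)) = Real.exp (-τ ^ 2) * wG (Pd K) (c * τ)
  simp_rw [e3]
  rw [integral_const_mul]
  congr 1
  rw [integral_neg_eq_self (fun x => {x : F | (c * τ)⁻¹ • x ∈ Pd K}.indicator
    (fun x => Real.exp (-‖x‖ ^ 2)) x), integral_indicator hPm]
  rfl

end Pool.Agent.Q182.H2.V
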